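import Pool.Agent.Helper17_AT6.CLC
import Pool.Agent.Helper28_AT8.LCL
import Pool.Agent.Helper25_KF.Idm

/-!
# Squad AT6, row BLK: the component in a local section of a section component, modulo `ℓ ^ c`
-/

open scoped BigOperators

set_option autoImplicit false

noncomputable section

namespace Pool.Agent.PP.T6.H94

open Pool.Agent.Helper51_AWC Pool.Agent.Helper79_WRA Pool.Agent.PP Pool.Agent.PP.KF
open Pool.Agent.PP.K9 Pool.Agent.PP.K9.H97 Pool.Agent.PP.H75 Pool.Agent.PP.T3 Pool.Agent.PP.T2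
open Pool.Agent.PP.T6

attribute [local instance] Ideal.Quotient.field

section tools

variable {G : Type} [Group G] [Finite G]

/-- two functions commute if the second one is invariant under the support of the first -/
theorem comm_of_inv {F : Type} [Field F] {a c : G → F}
    (h : ∀ r, a r ≠ 0 → ∀ y, c (r * y * r⁻¹) = c y) : mulF a c = mulF c a := by
  have := Fintype.ofFinite G
  funext y
  unfold mulF
  rw [finsum_eq_sum_of_fintype, finsum_eq_sum_of_fintype]
  rw [← Equiv.sum_comp ((Equiv.inv G).trans (Equiv.mulLeft y)) (fun t => c t * a (t⁻¹ * y))]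
  refine Finset.sum_congr rfl fun r _ => ?_
  change a r * c (r⁻¹ * y) = c (y * r⁻¹) * a ((y * r⁻¹)⁻¹ * y)
  have e1 : (y * r⁻¹)⁻¹ * y = r := by group
  rw [e1, mul_comm]
  by_cases hr : a r = 0
  · rw [hr, mul_zero, mul_zero]
  · have h1 := h r hr (r⁻¹ * y)
    have e2 : r * (r⁻¹ * y) * r⁻¹ = y * r⁻¹ := by group
    rw [e2] at h1
    rw [h1]

/-- the facts on the lift of an idempotent of a subgroup -/
theorem hat_facts {M : Ideal (integralClosure ℤ ℂ)} [M.IsMaximal] (X : Subgroup G)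
    {b : G → FF M} (hb : Ix X b) :
    (∀ y, hat M X b y ∈ RM M) ∧ (∀ y, rr M (hat M X b y) = b y) ∧
    (∀ y, y ∉ X → hat M X b y = 0) ∧ mulF (hat M X b) (hat M X b) = hat M X b ∧
    ∀ d ∈ X, ∀ y, hat M X b (d * y * d⁻¹) = hat M X b y := by
  have := Fintype.ofFinite G
  have := Fintype.ofFinite X
  have h1 := KF.H25.idm M X (fun t : X => b t) hb.idem
  have hsupp : ∀ y, y ∉ X → hat M X b y = 0 := H75.ext0_supp X _
  have hin : ∀ y (hy : y ∈ X), hat M X b y = eh M (fun t : X => b t) ⟨y, hy⟩ := by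
    intro y hy
    unfold hat
    rw [H75.ext0, dif_pos hy]
  refine ⟨?_, ?_, hsupp, ?_, ?_⟩
  · intro y
    by_cases hy : y ∈ X
    · rw [hin y hy]
      exact (h1.1 _).1
    · rw [hsupp y hy]
      exact (RM M).zero_mem
  · intro y
    by_cases hy : y ∈ X
    · rw [hin y hy]
      exact (h1.1 _).2
    · rw [hsupp y hy, rr_zero, hb.supp y hy]
  · unfold hat
    rw [← H75.ext0_mulF, h1.2.1.2]
  · intro d hd y
    by_cases hy : y ∈ X
    · have hy' : d * y * d⁻¹ ∈ X := X.mul_mem (X.mul_mem hd hy) (X.inv_mem hd)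
      rw [hin y hy, hin _ hy']
      exact h1.2.1.1 ⟨y, hy⟩ ⟨d, hd⟩
    · have hy' : d * y * d⁻¹ ∉ X := by
        intro h
        apply hy
        have := X.mul_mem (X.mul_mem (X.inv_mem hd) h) hd
        have e : d⁻¹ * (d * y * d⁻¹) * d = y := by group
        rwa [e] at this
      rw [hsupp y hy, hsupp _ hy']

theorem dv_zero {M : Ideal (integralClosure ℤ ℂ)} [M.IsMaximal] (m : ℂ) : Dv M m 0 :=
  ⟨0, (RM M).zero_mem, (mul_zero m).symm⟩

theorem dv_neg {M : Ideal (integralClosure ℤ ℂ)} [M.IsMaximal] {m z : ℂ} (h : Dv M m z) :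
    Dv M m (-z) := by
  obtain ⟨t, ht, rfl⟩ := h
  exact ⟨-t, (RM M).neg_mem ht, by ring⟩

theorem fv_sub (a c : G → ℂ) (g : G) (θ : G → ℂ) :
    T8.fv (a - c) g θ = T8.fv a g θ - T8.fv c g θ := by
  have := Fintype.ofFinite G
  unfold T8.fv
  rw [finsum_eq_sum_of_fintype, finsum_eq_sum_of_fintype, finsum_eq_sum_of_fintype,
    ← Finset.sum_sub_distrib]
  refine Finset.sum_congr rfl fun x _ => ?_
  rw [Pi.sub_apply]
  ring

omit [Finite G] in
theorem el_mem {ℓ : ℕ} {V : Subgroup G} (hV : IsPGroup ℓ V) {u : G} (hu : u ∈ V) : El ℓ u := by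
  obtain ⟨k, hk⟩ := hV ⟨u, hu⟩
  exact ⟨k, by simpa using congrArg Subtype.val hk⟩

end tools

theorem blk (svv : SvvStmt) (clc : ClcStmt) (cnd : CndStmt) (div : DivStmt)
    (pwu : T2.PwuStmt) : BlkStmt := by
  intro ℓ _ M _ hM G _ _ e V γ hL c V₁ W hV₁ hW f hf v hv b hb v' hv' g' hg' θ hθ hθR h hh
  classical
  have := Fintype.ofFinite G
  have hab := hL.ab
  obtain ⟨hU1, hU2, -⟩ := pwu G (ℓ ^ c) V hab
  have hVV : V₁ ≤ V := hV₁ ▸ hU2
  have hWV : W ≤ V := by
    rw [hW]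
    exact (pwu G (ℓ ^ (2 * c)) V hab).2.1
  have hab₁ : ∀ a ∈ V₁, ∀ b ∈ V₁, a * b = b * a := fun a ha b hb => hab a (hVV ha) b (hVV hb)
  have hUW : Uw (ℓ ^ c) V₁ = W := by
    ext x
    rw [(pwu G (ℓ ^ c) V₁ hab₁).1, hW, (pwu G (ℓ ^ (2 * c)) V hab).1]
    constructor
    · rintro ⟨d, hd, rfl⟩
      rw [hV₁, hU1] at hd
      obtain ⟨w, hw, rfl⟩ := hd
      exact ⟨w, hw, by rw [← pow_mul, ← pow_add, two_mul]⟩
    · rintro ⟨w, hw, rfl⟩
      refine ⟨w ^ ℓ ^ c, ?_, by rw [← pow_mul, ← pow_add, two_mul]⟩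
      rw [hV₁, hU1]
      exact ⟨w, hw, rfl⟩
  have hV₁H : V₁ ≤ Subgroup.centralizer (W : Set G) := by
    intro d hd
    rw [Subgroup.mem_centralizer_iff]
    intro y hy
    exact hab y (hWV hy) d (hVV hd)
  have hP₁ : IsPGroup ℓ V₁ := hL.tp.pg.to_le hVV
  obtain ⟨H, hH⟩ : ∃ H : Subgroup G, H = Subgroup.centralizer (W : Set G) := ⟨_, rfl⟩
  have hcnd := cnd ℓ M hM G e V γ hL W hWV f hf v hv b hb v' hv' g' hg'
  subst hH
  have hbI : Ix (Cu v) b := hb.blk.ix
  have hgI : Ix (Cu v') g' := hg'.blk.ix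
  have hsv := svv ℓ M hM G v b hbI θ hθ
  have hψ : ∀ x y : Subgroup.centralizer (W : Set G),
      sv M ℓ v b θ ((y * x * y⁻¹ : Subgroup.centralizer (W : Set G)) : G) = sv M ℓ v b θ x := by
    intro x y
    exact hsv.2.2.1 x y
  have hθH : ∀ x y : Subgroup.centralizer (W : Set G),
      θ ((y * x * y⁻¹ : Subgroup.centralizer (W : Set G)) : G) = θ x := fun x y => hθ x y
  have hs1 := svv ℓ M hM _ v' g' hgI
    (fun t : Subgroup.centralizer (W : Set G) => sv M ℓ v b θ t) hψ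
  have hs2 := svv ℓ M hM _ v' g' hgI (fun t : Subgroup.centralizer (W : Set G) => θ t) hθH
  by_cases hu : ∃ u : Subgroup.centralizer (W : Set G), T5.Lp ℓ (u⁻¹ * h * u) v'
  swap
  · have hu' : ∀ u : Subgroup.centralizer (W : Set G), ¬ T5.Lp ℓ (u⁻¹ * h * u) v' :=
      fun u h' => hu ⟨u, h'⟩
    rw [hs1.2.1 h hu', hs2.2.1 h hu', sub_zero]
    exact ⟨fun _ => dv_zero _, fun _ => dv_zero _⟩
  obtain ⟨u, hu⟩ := hu
  rw [hs1.1 h u hu, hs2.1 h u hu]
  obtain ⟨x, hx⟩ : ∃ x, x = u * v' * u⁻¹ := ⟨_, rfl⟩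
  obtain ⟨κ, hκ⟩ : ∃ κ, κ = cj u g' := ⟨_, rfl⟩
  have hlp : T5.Lp ℓ h x := by
    rw [hx]
    exact H17.lp_conj hu
  have hcu : ∀ ψ : Subgroup.centralizer (W : Set G) → ℂ, (∀ x y, ψ (y * x * y⁻¹) = ψ x) →
      gv M (Cu v') (u⁻¹ * h * u) g' ψ = gv M (Cu x) h κ ψ := by
    intro ψ hψ
    have h1 := H17.gv_cj2 (u⁻¹ * h * u) hx.symm hgI.idem.1 hψ
    have e1 : u * (u⁻¹ * h * u) * u⁻¹ = h := by group
    rw [e1, ← hκ] at h1
    exact h1.symm
  rw [hcu _ hψ, hcu _ hθH]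
  have hκI : Ix (Cu x) κ := by
    rw [hκ]
    apply T3.H62.ix_cj _ hgI
    intro y
    rw [Subgroup.mem_centralizer_singleton_iff, Subgroup.mem_centralizer_singleton_iff, hx]
    constructor
    · intro h
      calc u⁻¹ * y * u * v' = u⁻¹ * (y * (u * v' * u⁻¹)) * u := by group
        _ = u⁻¹ * ((u * v' * u⁻¹) * y) * u := by rw [h]
        _ = v' * (u⁻¹ * y * u) := by group
    · intro h
      calc y * (u * v' * u⁻¹) = u * (u⁻¹ * y * u * v') * u⁻¹ := by group
        _ = u * (v' * (u⁻¹ * y * u)) * u⁻¹ := by rw [h]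
        _ = u * v' * u⁻¹ * y := by group
  -- the regular part
  obtain ⟨s, hs⟩ : ∃ s, s = x⁻¹ * h := ⟨_, rfl⟩
  have hxs : h = x * s := by rw [hs]; group
  have hsR : Reg ℓ s := by rw [hs]; exact hlp.reg
  have hsC : s ∈ Cu x := by
    rw [Subgroup.mem_centralizer_singleton_iff, hs]
    have : x * h = h * x := hlp.com
    calc x⁻¹ * h * x = x⁻¹ * (h * x) := by group
      _ = x⁻¹ * (x * h) := by rw [this]
      _ = x * (x⁻¹ * h) := by group
  -- `V₁` commutes with `x`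
  have hVx : ∀ d (hd : d ∈ V₁), (⟨d, hV₁H hd⟩ : Subgroup.centralizer (W : Set G)) ∈ Cu x := by
    intro d hd
    obtain ⟨D, hD⟩ : ∃ D : Subgroup.centralizer (W : Set G), D = ⟨d, hV₁H hd⟩ := ⟨_, rfl⟩
    rw [← hD]
    have h1 : D * h = h * D := by
      apply Subtype.ext
      rw [Subgroup.coe_mul, Subgroup.coe_mul, hD]
      exact Subgroup.mem_centralizer_iff.1 hh d hd
    have h2 : D⁻¹ * h * D = h := by
      rw [mul_assoc, ← h1]
      group
    have h3 : T5.Lp ℓ h (D * x * D⁻¹) := by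
      apply H17.lp_conj
      rw [h2]
      exact hlp
    have h4 := H17.lp_unique h3 hlp
    rw [Subgroup.mem_centralizer_singleton_iff]
    calc D * x = (D * x * D⁻¹) * D := by group
      _ = x * D := by rw [h4]
  have hcoe : ∀ t : Subgroup.centralizer (W : Set G), t ∈ Cu x → (t : G) ∈ Cu (x : G) := by
    intro t ht
    rw [Subgroup.mem_centralizer_singleton_iff] at ht ⊢
    rw [← Subgroup.coe_mul, ht, Subgroup.coe_mul]
  by_cases hw : ∃ w : G, w * v * w⁻¹ = x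
  swap
  · refine ⟨?_, fun _ => ?_⟩
    · rintro ⟨t, -, ht⟩
      exfalso
      apply hw
      refine ⟨u * t, ?_⟩
      rw [hx, Subgroup.coe_mul, Subgroup.coe_mul, Subgroup.coe_inv, ← ht]
      group
    · rw [hxs, (clc ℓ M hM G _ v (el_mem hL.tp.pg hv) b hbI θ hθ x κ hlp.el hκI s hsC hsR).2
        fun w h' => hw ⟨w, h'⟩]
      exact dv_zero _
  obtain ⟨w, hw⟩ := hw
  have hc1 := (clc ℓ M hM G _ v (el_mem hL.tp.pg hv) b hbI θ hθ x κ hlp.el hκI s hsC
    hsR).1 w hw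
  rw [← hxs] at hc1
  rw [hc1]
  have hb'I : Ix (Cu (x : G)) (cj w b) := by
    apply T3.H62.ix_cj _ hbI
    intro y
    rw [Subgroup.mem_centralizer_singleton_iff, Subgroup.mem_centralizer_singleton_iff, ← hw]
    constructor
    · intro h
      calc w⁻¹ * y * w * v = w⁻¹ * (y * (w * v * w⁻¹)) * w := by group
        _ = w⁻¹ * ((w * v * w⁻¹) * y) * w := by rw [h]
        _ = v * (w⁻¹ * y * w) := by group
    · intro h
      calc y * (w * v * w⁻¹) = w * (w⁻¹ * y * w * v) * w⁻¹ := by group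
        _ = w * (v * (w⁻¹ * y * w)) * w⁻¹ := by rw [h]
        _ = w * v * w⁻¹ * y := by group
  obtain ⟨k1, k2, k3, k4, k5⟩ := hat_facts (M := M) (Cu x) hκI
  obtain ⟨l1, l2, l3, l4, l5⟩ := hat_facts (M := M) (Cu (x : G)) hb'I
  obtain ⟨K, hK⟩ : ∃ K, K = H75.ext0 (Subgroup.centralizer (W : Set G)) (hat M (Cu x) κ) :=
    ⟨_, rfl⟩
  obtain ⟨B, hB⟩ : ∃ B, B = hat M (Cu (x : G)) (cj w b) := ⟨_, rfl⟩
  rw [← hB] at l1 l2 l3 l4 l5
  have hKin : ∀ t : Subgroup.centralizer (W : Set G), K t = hat M (Cu x) κ t := by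
    intro t
    rw [hK, H75.ext0_apply]
  have hKout : ∀ t, t ∉ Subgroup.centralizer (W : Set G) → K t = 0 := by
    intro t ht
    rw [hK, H75.ext0_supp _ _ t ht]
  have hKR : ∀ y, K y ∈ RM M := by
    intro y
    by_cases hy : y ∈ Subgroup.centralizer (W : Set G)
    · rw [hKin ⟨y, hy⟩]
      exact k1 _
    · rw [hKout y hy]
      exact (RM M).zero_mem
  have hKK : mulF K K = K := by
    rw [hK, ← H75.ext0_mulF, k4]
  have hKsupp : ∀ r, K r ≠ 0 → r ∈ Cu (x : G) := by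
    intro r hr
    by_cases hy : r ∈ Subgroup.centralizer (W : Set G)
    · apply hcoe ⟨r, hy⟩
      by_contra h'
      apply hr
      rw [hKin ⟨r, hy⟩, k3 _ h']
    · exact absurd (hKout r hy) hr
  have hKinv : ∀ d ∈ V₁, ∀ y, K (d * y * d⁻¹) = K y := by
    intro d hd y
    by_cases hy : y ∈ Subgroup.centralizer (W : Set G)
    · have := k5 ⟨d, hV₁H hd⟩ (hVx d hd) ⟨y, hy⟩
      rw [← hKin, ← hKin] at this
      exact this
    · rw [hKout y hy, hKout]
      intro h'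
      apply hy
      have h2 := mul_mem (mul_mem (inv_mem (hV₁H hd)) h') (hV₁H hd)
      have e : d⁻¹ * (d * y * d⁻¹) * d = y := by group
      rwa [e] at h2
  have hBinv : ∀ d ∈ V₁, ∀ y, B (d * y * d⁻¹) = B y := by
    intro d hd y
    exact l5 d (hcoe _ (hVx d hd)) y
  have hKB : mulF K B = mulF B K := comm_of_inv fun r hr y => l5 r (hKsupp r hr) y
  obtain ⟨P, hP⟩ : ∃ P, P = mulF K B := ⟨_, rfl⟩
  have hKP : mulF K P = P := by rw [hP, ← H20.mulF_assoc, hKK]
  have hPK : mulF P K = P := by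
    rw [hP, H20.mulF_assoc, ← hKB, ← H20.mulF_assoc, hKK]
  have hPB : mulF P B = P := by rw [hP, H20.mulF_assoc, l4]
  have hPP : mulF P P = P := by
    calc mulF P P = mulF P (mulF K B) := by rw [← hP]
      _ = mulF (mulF P K) B := (H20.mulF_assoc _ _ _).symm
      _ = P := by rw [hPK, hPB]
  have hPR : ∀ y, P y ∈ RM M := by
    rw [hP]
    exact T8.H28.mulF_RM hKR l1
  have hPinv : ∀ d ∈ V₁, ∀ y, P (d * y * d⁻¹) = P y := by
    intro d hd
    rw [← cj_eq_iff, hP, cj_mulF, (cj_eq_iff d K).2 (hKinv d hd), (cj_eq_iff d B).2 (hBinv d hd)]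
  -- the residue of `P` on the centraliser of `W`
  have hPres : ∀ y : Subgroup.centralizer (W : Set G), rr M (P y) =
      mulF (fun t : Subgroup.centralizer (W : Set G) => cj w b t) κ y := by
    intro y
    have h1 : T8.rd M P = mulF (T8.rd M K) (T8.rd M B) := by
      rw [hP]
      exact T8.H28.rd_mulF hKR l1
    have h2 : rr M (P y) = mulF (T8.rd M K) (T8.rd M B) y := by
      rw [← h1]
      rfl
    rw [h2]
    have h3 := congrFun (mulF_res (Subgroup.centralizer (W : Set G)) (a := T8.rd M K) (T8.rd M B)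
      (fun t ht => by
        change rr M (K t) = 0
        rw [hKout t ht, rr_zero])) y
    rw [h3]
    have h4 : (fun t : Subgroup.centralizer (W : Set G) => T8.rd M K t) = κ := by
      funext t
      change rr M (K t) = κ t
      rw [hKin, k2]
    have h5 : (fun t : Subgroup.centralizer (W : Set G) => T8.rd M B t) =
        fun t : Subgroup.centralizer (W : Set G) => cj w b t := by
      funext t
      exact l2 t
    rw [h4, h5]
    refine congrFun (comm_of_inv fun r hr y => ?_) y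
    have hr' : r ∈ Cu x := by
      by_contra h'
      exact hr (hκI.supp r h')
    have h6 := (cj_eq_iff (r : G) (cj w b)).1 (hb'I.inv (hcoe r hr')) y
    exact h6
  have hw₁ : ((u : G)⁻¹ * w) * v * ((u : G)⁻¹ * w)⁻¹ = v' := by
    calc ((u : G)⁻¹ * w) * v * ((u : G)⁻¹ * w)⁻¹ = (u : G)⁻¹ * (w * v * w⁻¹) * u := by group
      _ = (u : G)⁻¹ * ((u * v' * u⁻¹ : Subgroup.centralizer (W : Set G)) : G) * u := by
          rw [hw, hx]
      _ = v' := by
          rw [Subgroup.coe_mul, Subgroup.coe_mul, Subgroup.coe_inv]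
          group
  obtain ⟨hn1, hn2⟩ := hcnd ((u : G)⁻¹ * w) hw₁
  have hcjm : mulF (fun t : Subgroup.centralizer (W : Set G) => cj w b t) κ =
      cj u (mulF (fun t : Subgroup.centralizer (W : Set G) => cj ((u : G)⁻¹ * w) b t) g') := by
    rw [cj_mulF, ← hκ]
    congr 1
    funext t
    change b (w⁻¹ * t * w) = b (((u : G)⁻¹ * w)⁻¹ * ((u : G)⁻¹ * t * u) * ((u : G)⁻¹ * w))
    congr 1
    group
  have hdiv : ∀ J : G → ℂ, (∀ x, J x ∈ RM M) → mulF J J = J →
      (∀ d ∈ V₁, ∀ x, J (d * x * d⁻¹) = J x) →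
      (∀ y : Subgroup.centralizer (W : Set G), rr M (J y) = 0) →
      Dv M ((ℓ : ℂ) ^ c) (T8.fv J h θ) := by
    intro J h1 h2 h3 h4
    refine div ℓ M hM G V₁ hP₁ hab₁ c J h1 h2 h3 ?_ θ hθ hθR h hh
    intro y hy
    rw [hUW] at hy
    exact h4 ⟨y, hy⟩
  have hfvK : gv M (Cu x) h κ (fun t : Subgroup.centralizer (W : Set G) => θ t) =
      T8.fv K h θ := by
    have := Fintype.ofFinite (Subgroup.centralizer (W : Set G))
    rw [H17.gv_sum]
    unfold T8.fv
    rw [finsum_eq_sum_of_fintype, hK,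
      ← H17.sumext (Subgroup.centralizer (W : Set G)) (hat M (Cu x) κ) (fun g => θ (h * g)),
      finsum_eq_sum_of_fintype]
    rfl
  rw [hfvK, ← hK, ← hB, ← hP]
  constructor
  · intro ht
    have h1 := hn1 ht
    rw [h1, ← hκ] at hcjm
    have h2 : T8.fv P h θ - T8.fv K h θ = -T8.fv (K - P) h θ := by
      rw [fv_sub]
      ring
    rw [h2]
    refine dv_neg (hdiv _ ?_ ?_ ?_ ?_)
    · intro y
      exact (RM M).sub_mem (hKR y) (hPR y)
    · rw [H20.mulF_sub, H20.sub_mulF, H20.sub_mulF, hKK, hPK, hKP, hPP]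
      simp
    · intro d hd y
      rw [Pi.sub_apply, Pi.sub_apply, hKinv d hd, hPinv d hd]
    · intro y
      rw [Pi.sub_apply, rr_sub (hKR y) (hPR y), hPres y, hcjm, hKin, k2, sub_self]
  · intro ht
    have h1 := hn2 ht
    rw [h1, cj_zero] at hcjm
    refine hdiv P hPR hPP hPinv ?_
    intro y
    rw [hPres y, hcjm]
    rfl

end Pool.Agent.PP.T6.H94
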