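import Pool.Agent.AT6.Stmts3

/-!
Squad AT6, row AVG (helper94): the averaging lemma.
-/

open scoped BigOperators

noncomputable section

namespace Pool.Agent.PP.T6.H94

open Pool.Agent.PP Pool.Agent.PP.T6

/-- the norm of a vector -/
def nrm {β : ℕ} (x : Fin β → ℂ) : ℝ := Real.sqrt (∑ k, Complex.normSq (x k))

theorem nrm_eq {β : ℕ} (x : Fin β → ℂ) :
    nrm x = ‖(WithLp.toLp 2 x : EuclideanSpace ℂ (Fin β))‖ := by
  rw [EuclideanSpace.norm_eq]
  unfold nrm
  congr 1
  refine Finset.sum_congr rfl fun k _ => ?_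
  rw [Complex.normSq_eq_norm_sq]

theorem sum_nn {β : ℕ} (x : Fin β → ℂ) : 0 ≤ ∑ k, Complex.normSq (x k) :=
  Finset.sum_nonneg fun k _ => Complex.normSq_nonneg _

theorem nrm_nn {β : ℕ} (x : Fin β → ℂ) : 0 ≤ nrm x := Real.sqrt_nonneg _

theorem nrm_sq {β : ℕ} (x : Fin β → ℂ) : nrm x ^ 2 = ∑ k, Complex.normSq (x k) :=
  Real.sq_sqrt (sum_nn x)

theorem nrm_sum {β : ℕ} {ι : Type} (s : Finset ι) (f : ι → Fin β → ℂ) :
    nrm (∑ i ∈ s, f i) ≤ ∑ i ∈ s, nrm (f i) := by
  rw [nrm_eq]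
  have h : (WithLp.toLp 2 (∑ i ∈ s, f i) : EuclideanSpace ℂ (Fin β)) =
      ∑ i ∈ s, (WithLp.toLp 2 (f i) : EuclideanSpace ℂ (Fin β)) := by
    exact map_sum (WithLp.linearEquiv 2 ℂ (Fin β → ℂ)).symm f s
  rw [h]
  refine (norm_sum_le _ _).trans (le_of_eq ?_)
  refine Finset.sum_congr rfl fun i _ => ?_
  rw [nrm_eq]

theorem nrm_add_ge {β : ℕ} (x y : Fin β → ℂ) : nrm x - nrm y ≤ nrm (x + y) := by
  rw [nrm_eq, nrm_eq, nrm_eq]
  have h : (WithLp.toLp 2 (x + y) : EuclideanSpace ℂ (Fin β)) =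
      (WithLp.toLp 2 x : EuclideanSpace ℂ (Fin β)) + WithLp.toLp 2 y := rfl
  rw [h]
  have h1 := norm_sub_le ((WithLp.toLp 2 x : EuclideanSpace ℂ (Fin β)) + WithLp.toLp 2 y)
    (WithLp.toLp 2 y)
  rw [add_sub_cancel_right] at h1
  linarith

theorem nrm_smul {β : ℕ} (n : ℕ) (x : Fin β → ℂ) : nrm (n • x) = n * nrm x := by
  rw [nrm_eq, nrm_eq]
  have h : (WithLp.toLp 2 (n • x) : EuclideanSpace ℂ (Fin β)) =
      (n : ℂ) • (WithLp.toLp 2 x : EuclideanSpace ℂ (Fin β)) := by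
    ext k
    simp
  rw [h, norm_smul]
  simp

theorem dot_eq {β : ℕ} (x : Fin β → ℂ) :
    dotProduct (star x) x = ((∑ k, Complex.normSq (x k) : ℝ) : ℂ) := by
  unfold dotProduct
  push_cast
  refine Finset.sum_congr rfl fun k _ => ?_
  rw [Pi.star_apply, Complex.star_def, mul_comm, Complex.mul_conj]

theorem nrm_adj {β : ℕ} (U : Matrix (Fin β) (Fin β) ℂ) (hU : U.conjTranspose * U = 1)
    (x : Fin β → ℂ) : nrm (U.conjTranspose.mulVec x) = nrm x := by
  have hU' : U * U.conjTranspose = 1 := mul_eq_one_comm.1 hU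
  have h1 : dotProduct (star (U.conjTranspose.mulVec x)) (U.conjTranspose.mulVec x) =
      dotProduct (star x) x := by
    rw [Matrix.star_mulVec, Matrix.conjTranspose_conjTranspose, ← Matrix.dotProduct_mulVec,
      Matrix.mulVec_mulVec, hU', Matrix.one_mulVec]
  rw [dot_eq, dot_eq] at h1
  have h2 : (∑ k, Complex.normSq (U.conjTranspose.mulVec x k)) = ∑ k, Complex.normSq (x k) := by
    exact_mod_cast h1
  unfold nrm
  rw [h2]

theorem col_one {β : ℕ} (U : Matrix (Fin β) (Fin β) ℂ) (hU : U.conjTranspose * U = 1)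
    (k : Fin β) : ∑ k', Complex.normSq (U k' k) = 1 := by
  have h := congrFun (congrFun hU k) k
  rw [Matrix.mul_apply, Matrix.one_apply_eq] at h
  have h2 : ((∑ k', Complex.normSq (U k' k) : ℝ) : ℂ) = 1 := by
    rw [← h]
    push_cast
    refine Finset.sum_congr rfl fun k' _ => ?_
    rw [Matrix.conjTranspose_apply, Complex.star_def, mul_comm, Complex.mul_conj]
  exact_mod_cast h2

theorem avg (iso : IsoStmt) : AvgStmt := by
  classical
  intro X q J _ _ _ _ _ β b ε D hε hD hB hlow hup hG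
  -- notation
  set Q : ℝ := (Fintype.card q : ℝ) with hQ
  set JJ : ℝ := (Fintype.card J : ℝ) with hJJ
  have hQ0 : 0 < Q := by
    rw [hQ]
    exact_mod_cast Fintype.card_pos
  have hJ0 : 0 < JJ := by
    rw [hJJ]
    exact_mod_cast Fintype.card_pos
  let mJ : q → X → ℝ := fun v χ => ∑ j, ∑ k, Complex.normSq (b j v χ k)
  have hmJ : ∀ v χ, 0 ≤ mJ v χ := fun v χ =>
    Finset.sum_nonneg fun j _ => sum_nn _
  let Gd : q → X → Prop := fun v χ => mJ v χ ≤ 256 * ε ^ 2 * JJ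
  -- few bad `v` for every `χ`
  have hbad : ∀ χ, (((Finset.univ.filter fun v => ¬ Gd v χ).card : ℕ) : ℝ) ≤ Q / 64 := by
    intro χ
    have h1 : (((Finset.univ.filter fun v => ¬ Gd v χ).card : ℕ) : ℝ) * (256 * ε ^ 2 * JJ) ≤
        4 * ε * Q * JJ := by
      calc (((Finset.univ.filter fun v => ¬ Gd v χ).card : ℕ) : ℝ) * (256 * ε ^ 2 * JJ)
          = ∑ v ∈ Finset.univ.filter fun v => ¬ Gd v χ, (256 * ε ^ 2 * JJ) := by
            rw [Finset.sum_const, nsmul_eq_mul]
        _ ≤ ∑ v ∈ Finset.univ.filter fun v => ¬ Gd v χ, mJ v χ := by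
            refine Finset.sum_le_sum fun v hv => ?_
            exact (not_le.1 (Finset.mem_filter.1 hv).2).le
        _ ≤ ∑ v, mJ v χ := Finset.sum_le_sum_of_subset_of_nonneg (Finset.filter_subset _ _)
            fun v _ _ => hmJ v χ
        _ ≤ 4 * ε * Q * JJ := hup χ
    have h2 : (((Finset.univ.filter fun v => ¬ Gd v χ).card : ℕ) : ℝ) * (64 * ε) ≤ Q := by
      have h3 : 0 < 4 * ε * JJ := by positivity
      refine le_of_mul_le_mul_right ?_ h3
      nlinarith
    have h4 : (0 : ℝ) ≤ (((Finset.univ.filter fun v => ¬ Gd v χ).card : ℕ) : ℝ) :=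
      Nat.cast_nonneg _
    rw [le_div_iff₀ (by norm_num)]
    nlinarith
  have hgood : ∀ χ, 63 / 64 * Q ≤ (((Finset.univ.filter fun v => Gd v χ).card : ℕ) : ℝ) := by
    intro χ
    have h1 := Finset.card_filter_add_card_filter_not (s := (Finset.univ : Finset q))
      (fun v => Gd v χ)
    have h2 : (((Finset.univ.filter fun v => Gd v χ).card : ℕ) : ℝ) +
        (((Finset.univ.filter fun v => ¬ Gd v χ).card : ℕ) : ℝ) = Q := by
      rw [hQ, ← Finset.card_univ, ← h1]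
      push_cast
      ring
    have h3 := hbad χ
    linarith
  -- the choice of `v₀`
  obtain ⟨v₀, hv₀⟩ : ∃ v₀, 63 / 64 * (Fintype.card X : ℝ) ≤
      (((Finset.univ.filter fun χ => Gd v₀ χ).card : ℕ) : ℝ) := by
    by_contra hcon
    push Not at hcon
    have h1 : ∑ v : q, (((Finset.univ.filter fun χ => Gd v χ).card : ℕ) : ℝ) <
        ∑ v : q, 63 / 64 * (Fintype.card X : ℝ) :=
      Finset.sum_lt_sum_of_nonempty Finset.univ_nonempty fun v _ => hcon v
    have h2 : ∑ v : q, (((Finset.univ.filter fun χ => Gd v χ).card : ℕ) : ℝ) =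
        ∑ χ : X, (((Finset.univ.filter fun v => Gd v χ).card : ℕ) : ℝ) := by
      simp only [Finset.card_filter]
      push_cast
      rw [Finset.sum_comm]
    have h3 : ∑ χ : X, 63 / 64 * Q ≤
        ∑ χ : X, (((Finset.univ.filter fun v => Gd v χ).card : ℕ) : ℝ) :=
      Finset.sum_le_sum fun χ _ => hgood χ
    rw [h2] at h1
    rw [Finset.sum_const, Finset.card_univ, nsmul_eq_mul] at h1 h3
    rw [← hQ] at h1
    nlinarith
  -- the unitary matrices
  have hU : ∀ (j : J) (v : q), ∃ U : Matrix (Fin β) (Fin β) ℂ, U.conjTranspose * U = 1 ∧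
      ∀ χ, Gd v₀ χ → Gd v χ → U.mulVec (b j v₀ χ) = b j v χ := by
    intro j v
    obtain ⟨U, h1, h2⟩ := iso β {χ : X // Gd v₀ χ ∧ Gd v χ} (fun χ => b j v₀ χ.1)
      (fun χ => b j v χ.1)
      (fun χ χ' => hG v₀ v χ.1 χ'.1 χ.2.1 χ'.2.1 χ.2.2 χ'.2.2 j)
    exact ⟨U, h1, fun χ h h' => h2 ⟨χ, h, h'⟩⟩
  choose U hU1 hU2 using hU
  let u : J → X → Fin β → ℂ := fun j χ => ∑ v, (U j v).conjTranspose.mulVec (b j v χ)
  -- upper bound
  have hup2 : ∀ j, ∑ χ, nrm (u j χ) ^ 2 ≤ D * Q * β := by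
    intro j
    have h1 : ∀ k : Fin β, ∑ χ, Complex.normSq (u j χ k) ≤ D * Q := by
      intro k
      have h2 := hB j (fun v k' => U j v k' k)
      have h3 : ∑ v : q, ∑ k', Complex.normSq (U j v k' k) = Q := by
        rw [Finset.sum_congr rfl fun v _ => col_one (U j v) (hU1 j v) k]
        rw [Finset.sum_const, Finset.card_univ, nsmul_eq_mul, mul_one]
      rw [h3] at h2
      refine le_trans (le_of_eq ?_) h2
      refine Finset.sum_congr rfl fun χ _ => ?_
      congr 1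
      simp only [u, Finset.sum_apply]
      refine Finset.sum_congr rfl fun v _ => ?_
      unfold Matrix.mulVec dotProduct
      refine Finset.sum_congr rfl fun k' _ => ?_
      change (U j v).conjTranspose k k' * b j v χ k' = _
      rw [Matrix.conjTranspose_apply, Complex.star_def, mul_comm]
    calc ∑ χ, nrm (u j χ) ^ 2 = ∑ χ, ∑ k, Complex.normSq (u j χ k) :=
          Finset.sum_congr rfl fun χ _ => nrm_sq _
      _ = ∑ k, ∑ χ, Complex.normSq (u j χ k) := Finset.sum_comm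
      _ ≤ ∑ k : Fin β, D * Q := Finset.sum_le_sum fun k _ => h1 k
      _ = D * Q * β := by
          rw [Finset.sum_const, Finset.card_univ, Fintype.card_fin, nsmul_eq_mul]
          ring
  -- lower bound
  have hbadsum : ∀ v χ, ¬ Gd v χ → ∑ j, nrm (b j v χ) ≤ mJ v χ / (16 * ε) := by
    intro v χ hv
    have h1 : (∑ j, nrm (b j v χ)) ^ 2 ≤ JJ * mJ v χ := by
      have h2 := sq_sum_le_card_mul_sum_sq (s := (Finset.univ : Finset J))
        (f := fun j => nrm (b j v χ))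
      rw [Finset.card_univ] at h2
      refine h2.trans (le_of_eq ?_)
      congr 1
      exact Finset.sum_congr rfl fun j _ => nrm_sq _
    have h3 : 256 * ε ^ 2 * JJ < mJ v χ := not_le.1 hv
    have h4 : 0 < mJ v χ := lt_of_le_of_lt (by positivity) h3
    have h5 : 0 ≤ ∑ j, nrm (b j v χ) := Finset.sum_nonneg fun j _ => nrm_nn _
    rw [le_div_iff₀ (by positivity)]
    refine le_of_sq_le_sq ?_ h4.le
    calc ((∑ j, nrm (b j v χ)) * (16 * ε)) ^ 2
        = (∑ j, nrm (b j v χ)) ^ 2 * (256 * ε ^ 2) := by ring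
      _ ≤ (JJ * mJ v χ) * (256 * ε ^ 2) := mul_le_mul_of_nonneg_right h1 (by positivity)
      _ = (256 * ε ^ 2 * JJ) * mJ v χ := by ring
      _ ≤ mJ v χ * mJ v χ := mul_le_mul_of_nonneg_right h3.le h4.le
      _ = mJ v χ ^ 2 := by ring
  have hlow2 : ∀ χ, Gd v₀ χ → Q ^ 2 * JJ / 2 ≤ ∑ j, nrm (u j χ) ^ 2 := by
    intro χ hχ
    have h1 : ∀ j, 63 / 64 * Q * nrm (b j v₀ χ) -
        ∑ v ∈ Finset.univ.filter (fun v => ¬ Gd v χ), nrm (b j v χ) ≤ nrm (u j χ) := by
      intro j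
      have h2 : u j χ = (∑ v ∈ Finset.univ.filter (fun v => Gd v χ),
          (U j v).conjTranspose.mulVec (b j v χ)) +
          ∑ v ∈ Finset.univ.filter (fun v => ¬ Gd v χ),
            (U j v).conjTranspose.mulVec (b j v χ) :=
        (Finset.sum_filter_add_sum_filter_not _ _ _).symm
      have h3 : (∑ v ∈ Finset.univ.filter (fun v => Gd v χ),
          (U j v).conjTranspose.mulVec (b j v χ)) =
          (Finset.univ.filter (fun v => Gd v χ)).card • b j v₀ χ := by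
        rw [← Finset.sum_const]
        refine Finset.sum_congr rfl fun v hv => ?_
        rw [← hU2 j v χ hχ (Finset.mem_filter.1 hv).2, Matrix.mulVec_mulVec, hU1,
          Matrix.one_mulVec]
      rw [h2, h3]
      refine le_trans ?_ (nrm_add_ge _ _)
      rw [nrm_smul]
      have h4 : nrm (∑ v ∈ Finset.univ.filter (fun v => ¬ Gd v χ),
          (U j v).conjTranspose.mulVec (b j v χ)) ≤
          ∑ v ∈ Finset.univ.filter (fun v => ¬ Gd v χ), nrm (b j v χ) := by
        refine (nrm_sum _ _).trans (le_of_eq ?_)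
        exact Finset.sum_congr rfl fun v _ => nrm_adj _ (hU1 j v) _
      have h5 : 63 / 64 * Q * nrm (b j v₀ χ) ≤
          (((Finset.univ.filter fun v => Gd v χ).card : ℕ) : ℝ) * nrm (b j v₀ χ) :=
        mul_le_mul_of_nonneg_right (hgood χ) (nrm_nn _)
      linarith
    have h6 : 47 / 64 * Q * JJ ≤ ∑ j, nrm (u j χ) := by
      have h7 : ∑ j, (63 / 64 * Q * nrm (b j v₀ χ) -
          ∑ v ∈ Finset.univ.filter (fun v => ¬ Gd v χ), nrm (b j v χ)) ≤ ∑ j, nrm (u j χ) :=
        Finset.sum_le_sum fun j _ => h1 j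
      rw [Finset.sum_sub_distrib, ← Finset.mul_sum, Finset.sum_comm] at h7
      have h8 : ∑ v ∈ Finset.univ.filter (fun v => ¬ Gd v χ), ∑ j, nrm (b j v χ) ≤
          Q * JJ / 4 := by
        calc ∑ v ∈ Finset.univ.filter (fun v => ¬ Gd v χ), ∑ j, nrm (b j v χ)
            ≤ ∑ v ∈ Finset.univ.filter (fun v => ¬ Gd v χ), mJ v χ / (16 * ε) :=
              Finset.sum_le_sum fun v hv => hbadsum v χ (Finset.mem_filter.1 hv).2
          _ ≤ ∑ v, mJ v χ / (16 * ε) :=
              Finset.sum_le_sum_of_subset_of_nonneg (Finset.filter_subset _ _)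
                fun v _ _ => div_nonneg (hmJ v χ) (by positivity)
          _ = (∑ v, mJ v χ) / (16 * ε) := by rw [Finset.sum_div]
          _ ≤ (4 * ε * Q * JJ) / (16 * ε) :=
              div_le_div_of_nonneg_right (hup χ) (by positivity)
          _ = Q * JJ / 4 := by
              field_simp
              ring
      have h9 : JJ ≤ ∑ j, nrm (b j v₀ χ) := hlow v₀ χ
      have h10 : 63 / 64 * Q * JJ ≤ 63 / 64 * Q * ∑ j, nrm (b j v₀ χ) :=
        mul_le_mul_of_nonneg_left h9 (by positivity)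
      linarith
    have h11 : (∑ j, nrm (u j χ)) ^ 2 ≤ JJ * ∑ j, nrm (u j χ) ^ 2 := by
      have h2 := sq_sum_le_card_mul_sum_sq (s := (Finset.univ : Finset J))
        (f := fun j => nrm (u j χ))
      rw [Finset.card_univ] at h2
      exact h2
    have h12 : (47 / 64 * Q * JJ) ^ 2 ≤ (∑ j, nrm (u j χ)) ^ 2 :=
      pow_le_pow_left₀ (by positivity) h6 2
    have h13 : JJ * (Q ^ 2 * JJ / 2) ≤ JJ * ∑ j, nrm (u j χ) ^ 2 := by
      refine le_trans ?_ (h12.trans h11)
      have : 0 ≤ Q ^ 2 * JJ ^ 2 := by positivity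
      nlinarith
    exact le_of_mul_le_mul_left h13 hJ0
  -- conclusion
  have hfin : (((Finset.univ.filter fun χ => Gd v₀ χ).card : ℕ) : ℝ) * (Q ^ 2 * JJ / 2) ≤
      JJ * (D * Q * β) := by
    calc (((Finset.univ.filter fun χ => Gd v₀ χ).card : ℕ) : ℝ) * (Q ^ 2 * JJ / 2)
        = ∑ χ ∈ Finset.univ.filter fun χ => Gd v₀ χ, (Q ^ 2 * JJ / 2) := by
          rw [Finset.sum_const, nsmul_eq_mul]
      _ ≤ ∑ χ ∈ Finset.univ.filter fun χ => Gd v₀ χ, ∑ j, nrm (u j χ) ^ 2 :=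
          Finset.sum_le_sum fun χ hχ => hlow2 χ (Finset.mem_filter.1 hχ).2
      _ ≤ ∑ χ, ∑ j, nrm (u j χ) ^ 2 :=
          Finset.sum_le_sum_of_subset_of_nonneg (Finset.filter_subset _ _)
            fun χ _ _ => Finset.sum_nonneg fun j _ => sq_nonneg _
      _ = ∑ j, ∑ χ, nrm (u j χ) ^ 2 := Finset.sum_comm
      _ ≤ ∑ j : J, D * Q * β := Finset.sum_le_sum fun j _ => hup2 j
      _ = JJ * (D * Q * β) := by rw [Finset.sum_const, Finset.card_univ, nsmul_eq_mul]
  have h1 : (((Finset.univ.filter fun χ => Gd v₀ χ).card : ℕ) : ℝ) * Q ≤ 2 * β * D := by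
    have h2 : 0 < Q * JJ / 2 := by positivity
    refine le_of_mul_le_mul_right ?_ h2
    nlinarith
  have h3 : 63 / 64 * (Fintype.card X : ℝ) * Q ≤ 2 * β * D :=
    (mul_le_mul_of_nonneg_right hv₀ hQ0.le).trans h1
  have h4 : 0 ≤ (β : ℝ) * D := mul_nonneg (Nat.cast_nonneg _) hD
  have h5 : 0 ≤ (Fintype.card X : ℝ) * Q := by positivity
  nlinarith

end Pool.Agent.PP.T6.H94
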